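import Pool.Agent.Helper17.GS.PlaceG
import Pool.Agent.Helper77.GS.Red

/-!
# GS, block G: generic linear forms are not bad
-/

set_option autoImplicit false

universe u

namespace Pool.Agent.GS

open MvPolynomial

/-- block G from block W (`hW` is the conclusion of `special`) -/
theorem not_bad_of {k L : Type u} [Field k] [Field L] [Algebra k L] {N n q r : ℕ}
    (I : Set (MvPolynomial (Fin (N + 1)) k)) (hI : Homog I)
    (A V : Finset (Fin q)) (ι : Fin q → Fin q) (hc : Comb n A V ι)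
    (hW : ∀ (K : Type u) [Field K] [Algebra k K] (ℓ : Fin q → Fin (N + 1) → K) (μ : Fin q → Fin q → K),
      AlgebraicIndependent k (Sum.elim
        (fun p : {g : Fin q // ∀ i ∈ V, g ≠ ι i} × Fin (N + 1) => ℓ p.1 p.2)
        (fun p : {i : Fin q // i ∈ V} × {a : Fin q // a ∈ A} => μ p.1 p.2)) →
      (∀ i ∈ V, ∀ j, ℓ (ι i) j = ℓ i j + ∑ a ∈ A, μ i a * ℓ a j) →
      ∀ x : Fin r → Fin (N + 1) → K, (∀ σ, x σ ≠ 0) → (∀ σ, OnX I (x σ)) → ∃ g, ∀ σ, dt (ℓ g) (x σ) ≠ 0)
    (ℓ : Fin q → Fin (N + 1) → L)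
    (hind : AlgebraicIndependent k (fun p : Fin q × Fin (N + 1) => ℓ p.1 p.2)) :
    ¬ Bad I r A V ι ℓ := by
  classical
  rintro ⟨σ₀, x, c, hX, hA, hz, hu, hc0⟩
  obtain ⟨L', _, _, _, _, P, μ, hO, hres, hrel⟩ := place A V ι hc ℓ hind
  obtain ⟨m₀, hm₀⟩ := hc.nonempty
  have hxne : ∀ i ∈ V, ∀ σ, x i σ ≠ 0 := by
    intro i hi σ h0
    have h1 := hu i hi m₀ hm₀
    apply hc0 m₀ hm₀
    rw [← h1]
    refine Finset.prod_eq_zero (Finset.mem_univ σ) ?_
    rw [h0]
    simp [dt]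
  let y : Fin q → Fin r → Fin (N + 1) → L' := fun i σ j => algebraMap L L' (x i σ j)
  have hyne : ∀ i ∈ V, ∀ σ, y i σ ≠ 0 := by
    intro i hi σ h0
    apply hxne i hi σ
    funext j
    have h1 := congrFun h0 j
    exact (map_eq_zero (algebraMap L L')).1 h1
  have hdt : ∀ g i σ, dt (fun j => algebraMap L L' (ℓ g j)) (y i σ) = algebraMap L L' (dt (ℓ g) (x i σ)) := by
    intro g i σ
    simp only [dt, map_sum, map_mul]
    rfl
  have hyX : ∀ i ∈ V, ∀ σ, OnX I (y i σ) := by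
    intro i hi σ f hf
    have h1 : aeval (y i σ) f = algebraMap L L' (aeval (x i σ) f) :=
      aeval_algebraMap_apply L' (x i σ) f
    rw [h1, hX i hi σ f hf, map_zero]
  have key : ∀ i ∈ V, ∀ σ, ∃ s : L', s ≠ 0 ∧ (fun a => P.res (y i σ a / s)) ≠ 0 ∧
      (∀ g, algebraMap L L' (dt (ℓ g) (x i σ)) / s ∈ P.O ∧ P.res (algebraMap L L' (dt (ℓ g) (x i σ)) / s) =
        dt (fun a => P.res (algebraMap L L' (ℓ g a))) fun a => P.res (y i σ a / s)) ∧
      OnX I fun a => P.res (y i σ a / s) := by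
    intro i hi σ
    obtain ⟨s, hs, -, h1, h2, h3⟩ := red P (y i σ) (hyne i hi σ)
    refine ⟨s, hs, h1, fun g => ?_, h3 I hI (hyX i hi σ)⟩
    rw [← hdt]
    exact h2 _ fun a => hO g a
  choose! s hs hne hval hon using key
  -- a hyperplane missing all the reduced points
  have hg : ∀ i ∈ V, ∃ m ∈ V, ∀ σ, P.res (algebraMap L L' (dt (ℓ (ι m)) (x i σ)) / s i σ) ≠ 0 := by
    intro i hi
    obtain ⟨g, hg⟩ := hW _ (fun g j => P.res (algebraMap L L' (ℓ g j))) μ hres hrel
      (fun σ a => P.res (y i σ a / s i σ)) (fun σ => hne i hi σ) fun σ => hon i hi σ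
    by_cases hgV : ∀ j ∈ V, g ≠ ι j
    · exfalso
      obtain ⟨σ, -, hσ⟩ := Finset.prod_eq_zero_iff.1 (hz i hi g hgV)
      apply hg σ
      rw [← (hval i hi σ g).2, hσ, map_zero, zero_div, P.res_zero]
    · push Not at hgV
      obtain ⟨m, hm, rfl⟩ := hgV
      refine ⟨m, hm, fun σ => ?_⟩
      rw [(hval i hi σ _).2]
      exact hg σ
  choose! m hmV hm using hg
  -- the valuations
  let w : Fin q → P.O.ValueGroup := fun i => P.O.valuation (algebraMap L L' (c (ι i)))
  have hlt : ∀ i ∈ V, w i < w (m i) := by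
    intro i hi
    have hprod : ∀ j ∈ V, w j = ∏ σ, P.O.valuation (algebraMap L L' (dt (ℓ (ι j)) (x i σ))) := by
      intro j hj
      show P.O.valuation (algebraMap L L' (c (ι j))) = _
      rw [← hu i hi j hj, map_prod, map_prod]
    have hsne : ∀ σ, P.O.valuation (s i σ) ≠ 0 := fun σ => (map_ne_zero _).2 (hs i hi σ)
    have h1 : w (m i) = ∏ σ, P.O.valuation (s i σ) := by
      rw [hprod _ (hmV i hi)]
      refine Finset.prod_congr rfl fun σ _ => ?_
      have h2 := (P.res_ne_zero (hval i hi σ (ι (m i))).1).1 (hm i hi σ)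
      rw [map_div₀, div_eq_one_iff_eq (hsne σ)] at h2
      exact h2
    rw [h1, hprod i hi]
    have hle : ∀ σ, P.O.valuation (algebraMap L L' (dt (ℓ (ι i)) (x i σ))) ≤ P.O.valuation (s i σ) := by
      intro σ
      have h2 := (P.O.valuation_le_one_iff _).2 (hval i hi σ (ι i)).1
      rwa [map_div₀, div_le_one₀ (zero_lt_iff.2 (hsne σ))] at h2
    have hlt₀ : P.O.valuation (algebraMap L L' (dt (ℓ (ι i)) (x i σ₀))) < P.O.valuation (s i σ₀) := by
      have h3 : ∀ g ∈ insert i A, dt (fun a => P.res (algebraMap L L' (ℓ g a))) (fun a => P.res (y i σ₀ a / s i σ₀)) = 0 := by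
        intro g hg
        rw [← (hval i hi σ₀ g).2, hA i hi g hg, map_zero, zero_div, P.res_zero]
      have h4 : dt (fun a => P.res (algebraMap L L' (ℓ (ι i) a))) (fun a => P.res (y i σ₀ a / s i σ₀)) = 0 := by
        have h5 : dt (fun a => P.res (algebraMap L L' (ℓ (ι i) a))) (fun a => P.res (y i σ₀ a / s i σ₀)) =
            dt (fun a => P.res (algebraMap L L' (ℓ i a))) (fun a => P.res (y i σ₀ a / s i σ₀)) +
            ∑ g ∈ A, μ i g * dt (fun a => P.res (algebraMap L L' (ℓ g a))) (fun a => P.res (y i σ₀ a / s i σ₀)) := by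
          simp only [dt, Finset.mul_sum]
          rw [Finset.sum_comm, ← Finset.sum_add_distrib]
          refine Finset.sum_congr rfl fun j _ => ?_
          rw [hrel i hi j, add_mul, Finset.sum_mul]
          congr 1
          refine Finset.sum_congr rfl fun g _ => ?_
          ring
        rw [h5, h3 i (Finset.mem_insert_self _ _), zero_add]
        refine Finset.sum_eq_zero fun g hg => ?_
        rw [h3 g (Finset.mem_insert_of_mem hg), mul_zero]
      have h6 := (P.res_eq_zero (hval i hi σ₀ (ι i)).1).1 (by rw [(hval i hi σ₀ (ι i)).2, h4])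
      rwa [map_div₀, div_lt_one₀ (zero_lt_iff.2 (hsne σ₀))] at h6
    rw [← Finset.mul_prod_erase Finset.univ _ (Finset.mem_univ σ₀),
      ← Finset.mul_prod_erase Finset.univ (fun σ => P.O.valuation (s i σ)) (Finset.mem_univ σ₀)]
    have hne' : ∏ σ ∈ Finset.univ.erase σ₀, P.O.valuation (s i σ) ≠ 0 :=
      Finset.prod_ne_zero_iff.2 fun σ _ => hsne σ
    have hle' : ∏ σ ∈ Finset.univ.erase σ₀, P.O.valuation (algebraMap L L' (dt (ℓ (ι i)) (x i σ))) ≤
        ∏ σ ∈ Finset.univ.erase σ₀, P.O.valuation (s i σ) :=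
      Finset.prod_le_prod (fun _ _ => zero_le) fun σ _ => hle σ
    rw [mul_comm, mul_comm (P.O.valuation (s i σ₀))]
    exact (mul_le_mul_of_nonneg_right hle' zero_le).trans_lt (mul_lt_mul_of_pos_left hlt₀ (zero_lt_iff.2 hne'))
  obtain ⟨i, hi, hmax⟩ := V.exists_max_image w hc.nonempty
  exact absurd (hlt i hi) (not_lt.2 (hmax _ (hmV i hi)))

end Pool.Agent.GS
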