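import Pool.Agent.Helper97.GH.Val

/-!
# GS, block (d): a place of a field containing generic linear forms

`l i`, `i < q`, linear forms with algebraically independent coefficients over `k`. After an extension of the field there is a valuation ring
`O` over `k` such that the residues of the `l i`, `i ∉ ι(V)`, and elements `μ b a`, `b ∈ V`, `a ∈ A`, of the residue field are algebraically
independent over `k` and the residue of `l (ι b)` is the residue of `l b + ∑ a, μ b a * l a`.
-/

set_option autoImplicit false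

universe u

namespace Pool.Agent.Helper17.GS

open MvPolynomial

theorem exists_place {k K : Type u} [Field k] [Field K] [Algebra k K] {N q : ℕ} (A V : Finset (Fin q))
    (ι : Fin q → Fin q) (hιA : ∀ i ∈ V, ι i ∉ A) (hVV : ∀ i ∈ V, ∀ j ∈ V, i ≠ ι j)
    (hinj : ∀ i ∈ V, ∀ j ∈ V, ι i = ι j → i = j) (l : Fin q → Fin (N + 1) → K)
    (hl : AlgebraicIndependent k fun p : Fin q × Fin (N + 1) => l p.1 p.2) :
    ∃ (K' : Type u) (_ : Field K') (g : K →+* K') (O : ValuationSubring K') (F : Type u) (_ : Field F)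
      (_ : Algebra k F) (π : O →+* F), Function.Surjective π ∧ (∀ x, π x ≠ 0 ↔ IsUnit x) ∧
      (∀ c, ∃ h : g (algebraMap k K c) ∈ O, π ⟨_, h⟩ = algebraMap k F c) ∧
      ∃ (L : Fin q → Fin (N + 1) → O) (μ : Fin q → Fin q → F), (∀ i j, (L i j : K') = g (l i j)) ∧
        (∀ b ∈ V, ∀ j, π (L (ι b) j) = π (L b j) + ∑ a ∈ A, μ b a * π (L a j)) ∧
        AlgebraicIndependent k (Sum.elim (fun p : {i : Fin q // i ∉ V.image ι} × Fin (N + 1) => π (L p.1 p.2))
          (fun p : V × A => μ p.1 p.2)) := by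
  classical
  let M := MvPolynomial (V × A) K
  let K' := FractionRing M
  let R := MvPolynomial ((V × A) ⊕ (Fin q × Fin (N + 1))) k
  let D := MvPolynomial (({i : Fin q // i ∉ V.image ι} × Fin (N + 1)) ⊕ (V × A)) k
  -- the map to the big field
  let f : R →ₐ[k] K' := aeval (Sum.elim (fun p => algebraMap M K' (X p)) (fun p => algebraMap M K' (C (l p.1 p.2))))
  let e : MvPolynomial (Fin q × Fin (N + 1)) k →ₐ[k] K := aeval (fun p : Fin q × Fin (N + 1) => l p.1 p.2)
  have hf : Function.Injective f := by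
    have h1 : Function.Injective (MvPolynomial.map (σ := V × A) e.toRingHom) := MvPolynomial.map_injective _ hl
    have h2 : f.toRingHom = (algebraMap M K').comp
        ((MvPolynomial.map (σ := V × A) e.toRingHom).comp
        (sumAlgEquiv k (V × A) (Fin q × Fin (N + 1))).toRingEquiv.toRingHom) := by
      apply MvPolynomial.ringHom_ext
      · intro c
        show f (C c) = algebraMap M K' (MvPolynomial.map e.toRingHom (sumAlgEquiv k (V × A) (Fin q × Fin (N + 1)) (C c)))
        have h3 : sumAlgEquiv k (V × A) (Fin q × Fin (N + 1)) (C c) = C (C c) := by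
          rw [← algebraMap_eq, AlgEquiv.commutes]
          rfl
        rw [h3, map_C]
        show aeval _ (C c) = algebraMap M K' (C (e (C c)))
        rw [algHom_C, algHom_C, IsScalarTower.algebraMap_apply k M K']
        rfl
      · rintro (p | p)
        · show f (X (Sum.inl p)) = algebraMap M K' (MvPolynomial.map e.toRingHom
            (sumAlgEquiv k (V × A) (Fin q × Fin (N + 1)) (X (Sum.inl p))))
          have h3 : sumAlgEquiv k (V × A) (Fin q × Fin (N + 1)) (X (Sum.inl p)) = X p := sumAlgEquiv_X_inl _ _ _ _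
          rw [h3, map_X]
          exact aeval_X _ _
        · show f (X (Sum.inr p)) = algebraMap M K' (MvPolynomial.map e.toRingHom
            (sumAlgEquiv k (V × A) (Fin q × Fin (N + 1)) (X (Sum.inr p))))
          have h3 : sumAlgEquiv k (V × A) (Fin q × Fin (N + 1)) (X (Sum.inr p)) = C (X p) := sumAlgEquiv_X_inr _ _ _ _
          rw [h3, map_C]
          show aeval _ (X (Sum.inr p)) = algebraMap M K' (C (e (X p)))
          rw [aeval_X, aeval_X]
          rfl
    have h4 : Function.Injective f.toRingHom := by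
      rw [h2]
      exact (IsFractionRing.injective M K').comp (h1.comp (sumAlgEquiv k (V × A) (Fin q × Fin (N + 1))).injective)
    exact h4
  -- the preimage
  let pre : Fin q → Fin q := fun i => if h : ∃ b ∈ V, ι b = i then h.choose else i
  have hpre : ∀ b ∈ V, pre (ι b) = b := by
    intro b hb
    have h : ∃ b' ∈ V, ι b' = ι b := ⟨b, hb, rfl⟩
    have h1 : pre (ι b) = h.choose := dif_pos h
    rw [h1]
    exact hinj _ h.choose_spec.1 _ hb h.choose_spec.2
  have hnot : ∀ b ∈ V, b ∉ V.image ι := by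
    intro b hb h
    obtain ⟨j, hj, hj'⟩ := Finset.mem_image.1 h
    exact hVV b hb j hj hj'.symm
  have hnotA : ∀ a ∈ A, a ∉ V.image ι := by
    intro a ha h
    obtain ⟨j, hj, hj'⟩ := Finset.mem_image.1 h
    exact hιA j hj (hj' ▸ ha)
  -- the specialization
  let Xl : Fin q → Fin (N + 1) → D := fun i j => if h : i ∉ V.image ι then X (Sum.inl (⟨i, h⟩, j)) else 0
  let Xr : Fin q → Fin q → D := fun b a => if h : b ∈ V ∧ a ∈ A then X (Sum.inr (⟨b, h.1⟩, ⟨a, h.2⟩)) else 0
  let Y : Fin q → Fin (N + 1) → D := fun i j =>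
    if i ∉ V.image ι then Xl i j else Xl (pre i) j + ∑ a ∈ A, Xr (pre i) a * Xl a j
  let ψ : R →ₐ[k] D := aeval (Sum.elim (fun p => X (Sum.inr p)) (fun p => Y p.1 p.2))
  have hP : (RingHom.ker ψ.toRingHom).IsPrime := RingHom.ker_isPrime _
  obtain ⟨O, hO, hu⟩ := Pool.Agent.Helper97.GH.exists_val f.toRingHom (RingHom.ker ψ.toRingHom) (by
    intro x hx
    have h1 : x = 0 := hf (by rw [map_zero]; exact hx)
    rw [h1]
    exact Ideal.zero_mem _)
  let fO : R →+* O := f.toRingHom.codRestrict O hO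
  let π : O →+* IsLocalRing.ResidueField O := IsLocalRing.residue O
  have hπ : ∀ x, π x ≠ 0 ↔ IsUnit x := fun x => IsLocalRing.residue_ne_zero_iff_isUnit x
  have hker : ∀ x, π (fO x) = 0 ↔ ψ x = 0 := by
    intro x
    have h1 := hu x
    have h2 := hπ (fO x)
    have h3 : x ∈ RingHom.ker ψ.toRingHom ↔ ψ x = 0 := Iff.rfl
    rw [← h3, ← not_iff_not]
    exact h2.trans h1
  let alg : Algebra k (IsLocalRing.ResidueField O) := ((π.comp fO).comp C).toAlgebra
  have halg : ∀ c, algebraMap k (IsLocalRing.ResidueField O) c = π (fO (C c)) := fun c => rfl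
  refine ⟨K', inferInstance, (algebraMap M K').comp C, O, IsLocalRing.ResidueField O, inferInstance, alg, π,
    IsLocalRing.residue_surjective, hπ, ?_, fun i j => fO (X (Sum.inr (i, j))),
    fun b a => if h : b ∈ V ∧ a ∈ A then π (fO (X (Sum.inl (⟨b, h.1⟩, ⟨a, h.2⟩)))) else 0, ?_, ?_, ?_⟩
  · intro c
    have h1 : f (C c) = algebraMap M K' (C (algebraMap k K c)) := by
      show aeval _ (C c) = _
      rw [algHom_C, IsScalarTower.algebraMap_apply k M K']
      rfl
    refine ⟨?_, ?_⟩
    · show algebraMap M K' (C (algebraMap k K c)) ∈ O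
      rw [← h1]
      exact hO _
    · rw [halg]
      congr 1
      exact Subtype.ext h1.symm
  · intro i j
    exact aeval_X _ _
  · intro b hb j
    have hS : ∑ a ∈ A, (if h : b ∈ V ∧ a ∈ A then π (fO (X (Sum.inl (⟨b, h.1⟩, ⟨a, h.2⟩)))) else 0) *
        π (fO (X (Sum.inr (a, j)))) = π (fO (∑ a ∈ A.attach, X (Sum.inl (⟨b, hb⟩, a)) * X (Sum.inr (a.1, j)))) := by
      rw [map_sum, map_sum, ← Finset.sum_attach A]
      refine Finset.sum_congr rfl fun a _ => ?_
      rw [dif_pos ⟨hb, a.2⟩, map_mul, map_mul]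
    show π (fO (X (Sum.inr (ι b, j)))) = π (fO (X (Sum.inr (b, j)))) + ∑ a ∈ A, _ * π (fO (X (Sum.inr (a, j))))
    rw [hS, ← map_add, ← map_add, ← sub_eq_zero, ← map_sub, ← map_sub, hker, map_sub, map_add, map_sum, sub_eq_zero]
    have h1 : ψ (X (Sum.inr (ι b, j))) = Xl b j + ∑ a ∈ A, Xr b a * Xl a j := by
      have h2 : ψ (X (Sum.inr (ι b, j))) = Y (ι b) j := aeval_X _ _
      rw [h2]
      show (if ι b ∉ V.image ι then Xl (ι b) j else Xl (pre (ι b)) j + ∑ a ∈ A, Xr (pre (ι b)) a * Xl a j) = _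
      rw [if_neg (not_not.2 (Finset.mem_image_of_mem ι hb)), hpre b hb]
    have h3 : ∀ i ∉ V.image ι, ψ (X (Sum.inr (i, j))) = Xl i j := by
      intro i hi
      have h2 : ψ (X (Sum.inr (i, j))) = Y i j := aeval_X _ _
      rw [h2]
      exact if_pos hi
    rw [h1, h3 b (hnot b hb), ← Finset.sum_attach A]
    congr 1
    refine Finset.sum_congr rfl fun a _ => ?_
    rw [map_mul, h3 a (hnotA a a.2)]
    congr 1
    have h4 : ψ (X (Sum.inl (⟨b, hb⟩, a))) = X (Sum.inr (⟨b, hb⟩, a)) := aeval_X _ _
    rw [h4]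
    exact dif_pos ⟨hb, a.2⟩
  · rw [algebraicIndependent_iff]
    intro p hp
    let s : D →ₐ[k] R := rename (Sum.elim (fun p => Sum.inr (p.1.1, p.2)) Sum.inl)
    have h1 : ∀ p, ψ (s p) = p := by
      intro p
      have h2 : ψ.comp s = AlgHom.id k D := by
        apply MvPolynomial.algHom_ext
        rintro (x | x)
        · show ψ (s (X (Sum.inl x))) = X (Sum.inl x)
          have h3 : s (X (Sum.inl x)) = X (Sum.inr (x.1.1, x.2)) := rename_X _ _
          have h4 : ψ (X (Sum.inr (x.1.1, x.2))) = Y x.1.1 x.2 := aeval_X _ _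
          rw [h3, h4]
          show (if x.1.1 ∉ V.image ι then Xl x.1.1 x.2 else _) = _
          rw [if_pos x.1.2]
          exact dif_pos x.1.2
        · show ψ (s (X (Sum.inr x))) = X (Sum.inr x)
          have h3 : s (X (Sum.inr x)) = X (Sum.inl x) := rename_X _ _
          have h4 : ψ (X (Sum.inl x)) = X (Sum.inr x) := aeval_X _ _
          rw [h3, h4]
      exact DFunLike.congr_fun h2 p
    have h2 : ∀ p, aeval (Sum.elim (fun p : {i : Fin q // i ∉ V.image ι} × Fin (N + 1) =>
        π (fO (X (Sum.inr (p.1.1, p.2))))) (fun p : V × A => if h : p.1.1 ∈ V ∧ p.2.1 ∈ A then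
          π (fO (X (Sum.inl (⟨p.1.1, h.1⟩, ⟨p.2.1, h.2⟩)))) else 0)) p = π (fO (s p)) := by
      intro p
      have h3 : (aeval (Sum.elim (fun p : {i : Fin q // i ∉ V.image ι} × Fin (N + 1) =>
        π (fO (X (Sum.inr (p.1.1, p.2))))) (fun p : V × A => if h : p.1.1 ∈ V ∧ p.2.1 ∈ A then
          π (fO (X (Sum.inl (⟨p.1.1, h.1⟩, ⟨p.2.1, h.2⟩)))) else 0)) :
          D →ₐ[k] IsLocalRing.ResidueField O).toRingHom = (π.comp fO).comp s.toRingHom := by
        apply MvPolynomial.ringHom_ext
        · intro c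
          show aeval _ (C c) = π (fO (s (C c)))
          rw [algHom_C, halg]
          congr 2
          exact (algHom_C s c).symm
        · rintro (x | x)
          · show aeval _ (X (Sum.inl x)) = π (fO (s (X (Sum.inl x))))
            have h3 : s (X (Sum.inl x)) = X (Sum.inr (x.1.1, x.2)) := rename_X _ _
            rw [aeval_X, h3]
            rfl
          · show aeval _ (X (Sum.inr x)) = π (fO (s (X (Sum.inr x))))
            have h3 : s (X (Sum.inr x)) = X (Sum.inl x) := rename_X _ _
            rw [aeval_X, h3]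
            exact dif_pos ⟨x.1.2, x.2.2⟩
      exact DFunLike.congr_fun h3 p
    have h3 : π (fO (s p)) = 0 := by
      rw [← h2]
      exact hp
    have h4 := (hker _).1 h3
    rwa [h1] at h4

end Pool.Agent.Helper17.GS
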