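import Pool.Agent.Helper77.GS.Defs
import Pool.Agent.Helper97.GH.Val

/-!
# GS, block O: the valuation ring with special residues
-/

set_option autoImplicit false

universe u

namespace Pool.Agent.GS

open MvPolynomial

theorem place {k L : Type u} [Field k] [Field L] [Algebra k L] {N n q : ℕ}
    (A V : Finset (Fin q)) (ι : Fin q → Fin q) (hc : Comb n A V ι)
    (ℓ : Fin q → Fin (N + 1) → L)
    (hind : AlgebraicIndependent k (fun p : Fin q × Fin (N + 1) => ℓ p.1 p.2)) :
    ∃ (L' : Type u) (_ : Field L') (_ : Algebra L L') (_ : Algebra k L') (_ : IsScalarTower k L L')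
      (P : Pla k L') (μ : Fin q → Fin q → P.K), (∀ g j, algebraMap L L' (ℓ g j) ∈ P.O) ∧
      AlgebraicIndependent k (Sum.elim
        (fun p : {g : Fin q // ∀ i ∈ V, g ≠ ι i} × Fin (N + 1) => P.res (algebraMap L L' (ℓ p.1 p.2)))
        (fun p : {i : Fin q // i ∈ V} × {a : Fin q // a ∈ A} => μ p.1 p.2)) ∧
      ∀ i ∈ V, ∀ j, P.res (algebraMap L L' (ℓ (ι i) j)) =
        P.res (algebraMap L L' (ℓ i j)) + ∑ a ∈ A, μ i a * P.res (algebraMap L L' (ℓ a j)) := by
  classical
  let M := MvPolynomial ({i : Fin q // i ∈ V} × {a : Fin q // a ∈ A}) L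
  let L' := FractionRing M
  let R := MvPolynomial (({i : Fin q // i ∈ V} × {a : Fin q // a ∈ A}) ⊕ (Fin q × Fin (N + 1))) k
  let D := MvPolynomial (({g : Fin q // ∀ i ∈ V, g ≠ ι i} × Fin (N + 1)) ⊕
    ({i : Fin q // i ∈ V} × {a : Fin q // a ∈ A})) k
  -- the map to the big field
  let f : R →ₐ[k] L' := aeval (Sum.elim (fun p => algebraMap M L' (X p)) (fun p => algebraMap L L' (ℓ p.1 p.2)))
  let e : MvPolynomial (Fin q × Fin (N + 1)) k →ₐ[k] L := aeval (fun p : Fin q × Fin (N + 1) => ℓ p.1 p.2)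
  have hLL' : ∀ z : L, algebraMap L L' z = algebraMap M L' (C z) := by
    intro z
    rw [IsScalarTower.algebraMap_apply L M L']
    rfl
  have hf : Function.Injective f := by
    have h1 : Function.Injective (MvPolynomial.map (σ := {i : Fin q // i ∈ V} × {a : Fin q // a ∈ A}) e.toRingHom) :=
      MvPolynomial.map_injective _ hind
    have h2 : f.toRingHom = (algebraMap M L').comp
        ((MvPolynomial.map (σ := {i : Fin q // i ∈ V} × {a : Fin q // a ∈ A}) e.toRingHom).comp
        (sumAlgEquiv k ({i : Fin q // i ∈ V} × {a : Fin q // a ∈ A}) (Fin q × Fin (N + 1))).toRingEquiv.toRingHom) := by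
      apply MvPolynomial.ringHom_ext
      · intro c
        show f (C c) = algebraMap M L' (MvPolynomial.map e.toRingHom
          (sumAlgEquiv k ({i : Fin q // i ∈ V} × {a : Fin q // a ∈ A}) (Fin q × Fin (N + 1)) (C c)))
        have h3 : sumAlgEquiv k ({i : Fin q // i ∈ V} × {a : Fin q // a ∈ A}) (Fin q × Fin (N + 1)) (C c) = C (C c) := by
          rw [← algebraMap_eq, AlgEquiv.commutes]
          rfl
        rw [h3, map_C]
        show aeval _ (C c) = algebraMap M L' (C (e (C c)))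
        rw [algHom_C, algHom_C, IsScalarTower.algebraMap_apply k M L']
        rfl
      · rintro (p | p)
        · show f (X (Sum.inl p)) = algebraMap M L' (MvPolynomial.map e.toRingHom
            (sumAlgEquiv k ({i : Fin q // i ∈ V} × {a : Fin q // a ∈ A}) (Fin q × Fin (N + 1)) (X (Sum.inl p))))
          have h3 : sumAlgEquiv k ({i : Fin q // i ∈ V} × {a : Fin q // a ∈ A}) (Fin q × Fin (N + 1)) (X (Sum.inl p)) =
            X p := sumAlgEquiv_X_inl _ _ _ _
          rw [h3, map_X]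
          exact aeval_X _ _
        · show f (X (Sum.inr p)) = algebraMap M L' (MvPolynomial.map e.toRingHom
            (sumAlgEquiv k ({i : Fin q // i ∈ V} × {a : Fin q // a ∈ A}) (Fin q × Fin (N + 1)) (X (Sum.inr p))))
          have h3 : sumAlgEquiv k ({i : Fin q // i ∈ V} × {a : Fin q // a ∈ A}) (Fin q × Fin (N + 1)) (X (Sum.inr p)) =
            C (X p) := sumAlgEquiv_X_inr _ _ _ _
          rw [h3, map_C]
          show aeval _ (X (Sum.inr p)) = algebraMap M L' (C (e (X p)))
          rw [aeval_X, aeval_X, ← hLL']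
          rfl
    have h4 : Function.Injective f.toRingHom := by
      rw [h2]
      exact (IsFractionRing.injective M L').comp (h1.comp
        (sumAlgEquiv k ({i : Fin q // i ∈ V} × {a : Fin q // a ∈ A}) (Fin q × Fin (N + 1))).injective)
    exact h4
  -- the preimage
  let pre : Fin q → Fin q := fun i => if h : ∃ b ∈ V, ι b = i then h.choose else i
  have hpre : ∀ b ∈ V, pre (ι b) = b := by
    intro b hb
    have h : ∃ b' ∈ V, ι b' = ι b := ⟨b, hb, rfl⟩
    have h1 : pre (ι b) = h.choose := dif_pos h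
    rw [h1]
    exact hc.inj _ h.choose_spec.1 _ hb h.choose_spec.2
  have hnot : ∀ b ∈ V, ∀ i ∈ V, b ≠ ι i := hc.VV
  have hnotA : ∀ a ∈ A, ∀ i ∈ V, a ≠ ι i := by
    intro a ha j hj h
    exact hc.ιA j hj (h ▸ ha)
  -- the specialization
  let Xl : Fin q → Fin (N + 1) → D := fun i j => if h : ∀ b ∈ V, i ≠ ι b then X (Sum.inl (⟨i, h⟩, j)) else 0
  let Xr : Fin q → Fin q → D := fun b a => if h : b ∈ V ∧ a ∈ A then X (Sum.inr (⟨b, h.1⟩, ⟨a, h.2⟩)) else 0
  let Y : Fin q → Fin (N + 1) → D := fun i j =>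
    if ∀ b ∈ V, i ≠ ι b then Xl i j else Xl (pre i) j + ∑ a ∈ A, Xr (pre i) a * Xl a j
  let ψ : R →ₐ[k] D := aeval (Sum.elim (fun p => X (Sum.inr p)) (fun p => Y p.1 p.2))
  have hP : (RingHom.ker ψ.toRingHom).IsPrime := RingHom.ker_isPrime _
  obtain ⟨O, hO, hu⟩ := Pool.Agent.Helper97.GH.exists_val f.toRingHom (RingHom.ker ψ.toRingHom) (by
    intro x hx
    have h1 : x = 0 := hf (by rw [map_zero]; exact hx)
    rw [h1]
    exact Ideal.zero_mem _)
  have hO' : ∀ x, f x ∈ O := hO
  let P : Pla k L' := ⟨O, fun c => by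
    have h1 : f (C c) = algebraMap k L' c := algHom_C _ _
    rw [← h1]
    exact hO _⟩
  have hker : ∀ x, P.res (f x) = 0 ↔ ψ x = 0 := by
    intro x
    have h1 : IsUnit (⟨f x, hO' x⟩ : O) ↔ x ∉ RingHom.ker ψ.toRingHom := hu x
    have h2 : P.res (f x) ≠ 0 ↔ IsUnit (⟨f x, hO' x⟩ : O) := by
      rw [P.res_of_mem (hO' x)]
      exact IsLocalRing.residue_ne_zero_iff_isUnit _
    have h3 : x ∈ RingHom.ker ψ.toRingHom ↔ ψ x = 0 := Iff.rfl
    rw [← h3, ← not_iff_not]
    exact h2.trans h1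
  have hadd : ∀ x y, P.res (f (x + y)) = P.res (f x) + P.res (f y) := fun x y => by
    rw [map_add, P.res_add (hO' x) (hO' y)]
  have hmul : ∀ x y, P.res (f (x * y)) = P.res (f x) * P.res (f y) := fun x y => by
    rw [map_mul, P.res_mul (hO' x) (hO' y)]
  have hsum : ∀ {T : Type} (s : Finset T) (g : T → R), P.res (f (∑ i ∈ s, g i)) = ∑ i ∈ s, P.res (f (g i)) := by
    intro T s g
    rw [map_sum, P.res_sum _ _ fun i _ => hO' _]
  have hfl : ∀ g j, f (X (Sum.inr (g, j))) = algebraMap L L' (ℓ g j) := fun g j => aeval_X _ _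
  refine ⟨L', inferInstance, inferInstance, inferInstance, inferInstance, P,
    fun b a => if h : b ∈ V ∧ a ∈ A then P.res (f (X (Sum.inl (⟨b, h.1⟩, ⟨a, h.2⟩)))) else 0, ?_, ?_, ?_⟩
  · intro g j
    rw [← hfl]
    exact hO' _
  · rw [algebraicIndependent_iff]
    intro p hp
    let s : D →ₐ[k] R := rename (Sum.elim (fun p => Sum.inr (p.1.1, p.2)) Sum.inl)
    have h1 : ∀ p, ψ (s p) = p := by
      intro p
      have h2 : ψ.comp s = AlgHom.id k D := by
        apply MvPolynomial.algHom_ext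
        rintro (x | x)
        · show ψ (s (X (Sum.inl x))) = X (Sum.inl x)
          have h3 : s (X (Sum.inl x)) = X (Sum.inr (x.1.1, x.2)) := rename_X _ _
          have h4 : ψ (X (Sum.inr (x.1.1, x.2))) = Y x.1.1 x.2 := aeval_X _ _
          rw [h3, h4]
          show (if ∀ b ∈ V, x.1.1 ≠ ι b then Xl x.1.1 x.2 else _) = _
          rw [if_pos x.1.2]
          exact dif_pos x.1.2
        · show ψ (s (X (Sum.inr x))) = X (Sum.inr x)
          have h3 : s (X (Sum.inr x)) = X (Sum.inl x) := rename_X _ _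
          have h4 : ψ (X (Sum.inl x)) = X (Sum.inr x) := aeval_X _ _
          rw [h3, h4]
      exact DFunLike.congr_fun h2 p
    have h2 : ∀ p, aeval (Sum.elim (fun p : {g : Fin q // ∀ i ∈ V, g ≠ ι i} × Fin (N + 1) =>
        P.res (algebraMap L L' (ℓ p.1 p.2))) (fun p : {i : Fin q // i ∈ V} × {a : Fin q // a ∈ A} =>
          if h : p.1.1 ∈ V ∧ p.2.1 ∈ A then P.res (f (X (Sum.inl (⟨p.1.1, h.1⟩, ⟨p.2.1, h.2⟩)))) else 0)) p =
          P.res (f (s p)) := by
      intro p
      induction p using MvPolynomial.induction_on with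
      | C c =>
        have h3 : s (C c) = C c := algHom_C _ _
        have h4 : f (C c) = algebraMap k L' c := algHom_C _ _
        rw [h3, h4, P.res_cst]
        exact algHom_C _ _
      | add p p' hp hp' => rw [map_add, map_add, hp, hp', hadd]
      | mul_X p x hp =>
        rw [map_mul, map_mul, hp, hmul, aeval_X]
        congr 1
        rcases x with x | x
        · have h3 : s (X (Sum.inl x)) = X (Sum.inr (x.1.1, x.2)) := rename_X _ _
          rw [h3, hfl]
          rfl
        · have h3 : s (X (Sum.inr x)) = X (Sum.inl x) := rename_X _ _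
          rw [h3]
          exact dif_pos ⟨x.1.2, x.2.2⟩
    have h3 : P.res (f (s p)) = 0 := by
      rw [← h2]
      exact hp
    have h4 := (hker _).1 h3
    rwa [h1] at h4
  · intro b hb j
    have hS : ∑ a ∈ A, (if h : b ∈ V ∧ a ∈ A then P.res (f (X (Sum.inl (⟨b, h.1⟩, ⟨a, h.2⟩)))) else 0) *
        P.res (algebraMap L L' (ℓ a j)) =
        P.res (f (∑ a ∈ A.attach, X (Sum.inl (⟨b, hb⟩, a)) * X (Sum.inr (a.1, j)))) := by
      rw [hsum, ← Finset.sum_attach A]
      refine Finset.sum_congr rfl fun a _ => ?_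
      rw [dif_pos ⟨hb, a.2⟩, hmul, hfl]
    rw [hS, ← hfl, ← hfl, ← hadd, ← sub_eq_zero]
    have hsub : ∀ x y, P.res (f x) - P.res (f y) = P.res (f (x - y)) := by
      intro x y
      rw [sub_eq_iff_eq_add, ← hadd, sub_add_cancel]
    rw [hsub, hker, map_sub, map_add, map_sum, sub_eq_zero]
    have h1 : ψ (X (Sum.inr (ι b, j))) = Xl b j + ∑ a ∈ A, Xr b a * Xl a j := by
      have h2 : ψ (X (Sum.inr (ι b, j))) = Y (ι b) j := aeval_X _ _
      rw [h2]
      show (if ∀ b' ∈ V, ι b ≠ ι b' then Xl (ι b) j else Xl (pre (ι b)) j + ∑ a ∈ A, Xr (pre (ι b)) a * Xl a j) = _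
      rw [if_neg (fun h => h b hb rfl), hpre b hb]
    have h3 : ∀ i, (∀ b' ∈ V, i ≠ ι b') → ψ (X (Sum.inr (i, j))) = Xl i j := by
      intro i hi
      have h2 : ψ (X (Sum.inr (i, j))) = Y i j := aeval_X _ _
      rw [h2]
      exact if_pos hi
    rw [h1, h3 b (hnot b hb), ← Finset.sum_attach A]
    congr 1
    refine Finset.sum_congr rfl fun a _ => ?_
    rw [map_mul, h3 a (hnotA a a.2)]
    congr 1
    have h4 : ψ (X (Sum.inl (⟨b, hb⟩, a))) = X (Sum.inr (⟨b, hb⟩, a)) := aeval_X _ _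
    rw [h4]
    exact dif_pos ⟨hb, a.2⟩

end Pool.Agent.GS
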